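import Pool.Agent.Q39.NR.Min

/-!
# Return times of nilsystems to open sets with asymmetric closure do not determine the system

The group `G` of the matrices `[[1, n, b], [0, 1, a], [0, 0, 1]]` with `n ∈ ℤ`, `a, b ∈ ℝ` acts on its
quotients by the lattices of the elements with integer entries, without and with the condition that
`n` is even: these are the torus and two copies of the torus.
-/

open Topology Set

namespace Pool.Agent.Results.MP_2aa58c_an.HeisenbergReturnTimes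

/-- The translation by `τ` on `G ⧸ Γ` is minimal: all its orbits are dense. -/
def IsMinimalTranslation {G : Type} [Group G] [TopologicalSpace G] (Γ : Subgroup G) (τ : G) :
    Prop :=
  ∀ x : G ⧸ Γ, Dense {y : G ⧸ Γ | ∃ n : ℤ, y = τ ^ n • x}

/-- `U` has asymmetric closure: an element which maps the closure of `U` onto itself acts trivially. -/
def AsymmetricClosure {G : Type} [Group G] [TopologicalSpace G] (Γ : Subgroup G)
    (U : Set (G ⧸ Γ)) : Prop :=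
  ∀ g : G, (fun x : G ⧸ Γ => g • x) '' closure U = closure U → ∀ x : G ⧸ Γ, g • x = x

open Pool.Agent.Q39.NR Pool.Agent.Q39.NR.HG

/-- The image of the elements with `a, b ∈ I`. -/
def box (r : ℕ) (I : Set ℝ) : Set (HG ⧸ Gam r) := QuotientGroup.mk '' {g : HG | g.a ∈ I ∧ g.b ∈ I}

theorem mem_box {r : ℕ} {I : Set ℝ} (g : HG) : (QuotientGroup.mk g : HG ⧸ Gam r) ∈ box r I ↔
    (∃ c : ℤ, g.a - c ∈ I) ∧ ∃ d : ℤ, g.b - d ∈ I := by
  constructor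
  · rintro ⟨h, ⟨h1, h2⟩, h3⟩
    rw [mk_eq] at h3
    obtain ⟨-, ⟨c, hc⟩, ⟨d, hd⟩⟩ := h3
    refine ⟨⟨c, ?_⟩, ⟨d, ?_⟩⟩
    · rwa [← hc, sub_sub_cancel]
    · rwa [← hd, sub_sub_cancel]
  · rintro ⟨⟨c, hc⟩, ⟨d, hd⟩⟩
    refine ⟨⟨g.n, g.a - c, g.b - d⟩, ⟨hc, hd⟩, ?_⟩
    rw [mk_eq]
    exact ⟨by simp, ⟨c, by simp⟩, ⟨d, by simp⟩⟩

theorem isOpen_box (r : ℕ) : IsOpen (box r (Ioo 0 (1 / 3))) := by
  refine QuotientGroup.isOpenMap_coe _ ?_
  exact (isOpen_Ioo.preimage cont_a).inter (isOpen_Ioo.preimage cont_b)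

theorem closed_fr : IsClosed {x : ℝ | ∃ c : ℤ, x - c ∈ Icc (0 : ℝ) (1 / 3)} := by
  have h1 : IsClosed (((↑) : ℝ → AddCircle (1 : ℝ)) ⁻¹' (((↑) : ℝ → AddCircle (1 : ℝ)) ''
      Icc (0 : ℝ) (1 / 3))) := by
    refine IsClosed.preimage (AddCircle.continuous_mk' 1) ?_
    exact (isCompact_Icc.image (AddCircle.continuous_mk' 1)).isClosed
  convert h1 using 1
  ext x
  simp only [mem_ofPred_eq, mem_preimage, mem_image]
  constructor
  · rintro ⟨c, hc⟩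
    refine ⟨x - c, hc, ?_⟩
    rw [QuotientAddGroup.eq, AddSubgroup.mem_zmultiples_iff]
    exact ⟨c, by simp⟩
  · rintro ⟨y, hy, hxy⟩
    rw [QuotientAddGroup.eq, AddSubgroup.mem_zmultiples_iff] at hxy
    obtain ⟨c, hc⟩ := hxy
    refine ⟨c, ?_⟩
    have : x - c = y := by
      simp at hc
      linarith
    rwa [this]

theorem closure_box (r : ℕ) : closure (box r (Ioo 0 (1 / 3))) = box r (Icc 0 (1 / 3)) := by
  apply subset_antisymm
  · refine closure_minimal (image_mono fun g hg => ⟨Ioo_subset_Icc_self hg.1,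
      Ioo_subset_Icc_self hg.2⟩) ?_
    have h1 : IsClosed ((QuotientGroup.mk : HG → HG ⧸ Gam r) ⁻¹' box r (Icc 0 (1 / 3))) := by
      have h2 : (QuotientGroup.mk : HG → HG ⧸ Gam r) ⁻¹' box r (Icc 0 (1 / 3)) =
          (fun g : HG => g.a) ⁻¹' {x : ℝ | ∃ c : ℤ, x - c ∈ Icc (0 : ℝ) (1 / 3)} ∩
          (fun g : HG => g.b) ⁻¹' {x : ℝ | ∃ c : ℤ, x - c ∈ Icc (0 : ℝ) (1 / 3)} := by
        ext g
        exact mem_box g
      rw [h2]
      exact (closed_fr.preimage cont_a).inter (closed_fr.preimage cont_b)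
    exact (QuotientGroup.isQuotientMap_mk _).isClosed_preimage.1 h1
  · have h1 : {g : HG | g.a ∈ Icc (0 : ℝ) (1 / 3) ∧ g.b ∈ Icc (0 : ℝ) (1 / 3)} ⊆
        closure {g : HG | g.a ∈ Ioo (0 : ℝ) (1 / 3) ∧ g.b ∈ Ioo (0 : ℝ) (1 / 3)} := by
      have h2 : {g : HG | g.a ∈ Ioo (0 : ℝ) (1 / 3) ∧ g.b ∈ Ioo (0 : ℝ) (1 / 3)} =
          homeo ⁻¹' (univ ×ˢ (Ioo (0 : ℝ) (1 / 3) ×ˢ Ioo (0 : ℝ) (1 / 3))) := by
        ext g
        rw [mem_preimage]
        show _ ↔ (g.n, g.a, g.b) ∈ (univ : Set ℤ) ×ˢ (Ioo (0 : ℝ) (1 / 3) ×ˢ Ioo (0 : ℝ) (1 / 3))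
        simp
      rw [h2, ← homeo.preimage_closure, closure_prod_eq, closure_prod_eq, closure_univ,
        closure_Ioo (by norm_num)]
      intro g hg
      rw [mem_preimage]
      exact ⟨mem_univ _, hg.1, hg.2⟩
    exact (image_mono h1).trans (image_closure_subset_closure_image QuotientGroup.continuous_mk)

theorem fr_int {x : ℝ} (h1 : ∃ c : ℤ, x - c ∈ Icc (0 : ℝ) (1 / 3))
    (h2 : ∃ c : ℤ, x + 1 / 3 - c ∈ Icc (0 : ℝ) (1 / 3)) : ∃ c : ℤ, x = c := by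
  obtain ⟨c, hc1, hc2⟩ := h1
  obtain ⟨d, hd1, hd2⟩ := h2
  have e1 : (d : ℝ) < c + 1 := by linarith
  have e2 : (c : ℝ) - 1 < d := by linarith
  have e3 : d < c + 1 := by exact_mod_cast e1
  have e4 : c - 1 < d := by exact_mod_cast e2
  obtain rfl : c = d := by omega
  exact ⟨c, by linarith⟩

theorem asym (r : ℕ) : AsymmetricClosure (Gam r) (box r (Ioo 0 (1 / 3))) := by
  intro g hg
  rw [closure_box] at hg
  have key : ∀ s t : ℝ, s ∈ Icc (0 : ℝ) (1 / 3) → t ∈ Icc (0 : ℝ) (1 / 3) →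
      (∃ c : ℤ, g.a + s - c ∈ Icc (0 : ℝ) (1 / 3)) ∧
      ∃ d : ℤ, g.b + t + g.n * s - d ∈ Icc (0 : ℝ) (1 / 3) := by
    intro s t hs ht
    have h1 : (QuotientGroup.mk ⟨0, s, t⟩ : HG ⧸ Gam r) ∈ box r (Icc 0 (1 / 3)) :=
      ⟨⟨0, s, t⟩, ⟨hs, ht⟩, rfl⟩
    have h2 : g • (QuotientGroup.mk ⟨0, s, t⟩ : HG ⧸ Gam r) ∈ box r (Icc 0 (1 / 3)) := by
      rw [← hg]
      exact ⟨_, h1, rfl⟩
    exact (mem_box (g * ⟨0, s, t⟩)).1 h2
  have h0 : (0 : ℝ) ∈ Icc (0 : ℝ) (1 / 3) := ⟨le_rfl, by norm_num⟩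
  have h3 : (1 / 3 : ℝ) ∈ Icc (0 : ℝ) (1 / 3) := ⟨by norm_num, le_rfl⟩
  obtain ⟨c, hc⟩ : ∃ c : ℤ, g.a = c := by
    apply fr_int
    · simpa using (key 0 0 h0 h0).1
    · exact (key _ 0 h3 h0).1
  have hb : ∀ s ∈ Icc (0 : ℝ) (1 / 3), ∃ d : ℤ, g.b + g.n * s = d := by
    intro s hs
    apply fr_int
    · obtain ⟨d, hd⟩ := (key s 0 hs h0).2
      exact ⟨d, by rwa [add_zero] at hd⟩
    · obtain ⟨d, hd⟩ := (key s _ hs h3).2
      refine ⟨d, ?_⟩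
      rwa [add_right_comm] at hd
  obtain ⟨d, hd⟩ := hb 0 h0
  rw [mul_zero, add_zero] at hd
  have hn : g.n = 0 := by
    by_contra hne
    have h4 : (1 : ℝ) ≤ |(g.n : ℝ)| := by
      have : 1 ≤ |g.n| := Int.one_le_abs hne
      exact_mod_cast this
    have hne' : (g.n : ℝ) ≠ 0 := by exact_mod_cast hne
    obtain ⟨e, he⟩ := hb (1 / (3 * |(g.n : ℝ)|)) ⟨by positivity, by
      apply one_div_le_one_div_of_le <;> linarith⟩
    have h5 : |(g.n : ℝ) * (1 / (3 * |(g.n : ℝ)|))| = 1 / 3 := by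
      rw [abs_mul, abs_of_pos (a := 1 / (3 * |(g.n : ℝ)|)) (by positivity)]
      field_simp
    have h6 : (g.n : ℝ) * (1 / (3 * |(g.n : ℝ)|)) = ((e - d : ℤ) : ℝ) := by
      push_cast
      linarith
    rw [h6] at h5
    have h7 : ((|e - d| : ℤ) : ℝ) = 1 / 3 := by
      push_cast
      push_cast at h5
      exact h5
    have h8 : ((3 * |e - d| : ℤ) : ℝ) = ((1 : ℤ) : ℝ) := by
      push_cast
      push_cast at h7
      linarith
    have h9 : 3 * |e - d| = 1 := by exact_mod_cast h8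
    omega
  intro x
  obtain ⟨h, rfl⟩ := QuotientGroup.mk_surjective x
  rw [smul_mk, mk_eq]
  refine ⟨?_, ⟨-c, ?_⟩, ⟨-d, ?_⟩⟩
  · simp [hn]
  · simp [hc]
  · simp [hn, hd]

theorem not_homeo : IsEmpty ((HG ⧸ Gam 1) ≃ₜ (HG ⧸ Gam 2)) := by
  constructor
  intro φ
  have h1 : IsPreconnected (univ : Set (HG ⧸ Gam 1)) := by
    have h2 : Continuous fun p : ℝ × ℝ => (QuotientGroup.mk (⟨0, p.1, p.2⟩ : HG) : HG ⧸ Gam 1) :=
      QuotientGroup.continuous_mk.comp (cont_mk continuous_const continuous_fst continuous_snd)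
    have h3 : range (fun p : ℝ × ℝ => (QuotientGroup.mk (⟨0, p.1, p.2⟩ : HG) : HG ⧸ Gam 1)) =
        univ := by
      rw [eq_univ_iff_forall]
      intro x
      obtain ⟨g, rfl⟩ := QuotientGroup.mk_surjective x
      refine ⟨(g.a, g.b), ?_⟩
      rw [mk_eq]
      exact ⟨by simp, ⟨0, by simp⟩, ⟨0, by simp⟩⟩
    rw [← h3]
    exact isPreconnected_range h2
  have h4 : IsPreconnected (univ : Set (HG ⧸ Gam 2)) := by
    have := h1.image φ φ.continuous.continuousOn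
    rwa [image_univ, φ.range_coe] at this
  have h5 : ∀ p : ℤ → Prop, IsOpen (QuotientGroup.mk '' {g : HG | p g.n} : Set (HG ⧸ Gam 2)) :=
    fun p => QuotientGroup.isOpenMap_coe _ ((isOpen_discrete {n | p n}).preimage cont_n)
  obtain ⟨x, -, ⟨g, hg, hgx⟩, ⟨h, hh, hhx⟩⟩ := h4 _ _ (h5 fun n => (2 : ℤ) ∣ n)
    (h5 fun n => ¬ (2 : ℤ) ∣ n) (by
      intro x _
      obtain ⟨g, rfl⟩ := QuotientGroup.mk_surjective x
      by_cases hg : (2 : ℤ) ∣ g.n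
      · exact Or.inl ⟨g, hg, rfl⟩
      · exact Or.inr ⟨g, hg, rfl⟩)
    ⟨QuotientGroup.mk ⟨0, 0, 0⟩, mem_univ _, ⟨⟨0, 0, 0⟩, by simp, rfl⟩⟩
    ⟨QuotientGroup.mk ⟨1, 0, 0⟩, mem_univ _, ⟨⟨1, 0, 0⟩, by norm_num, rfl⟩⟩
  rw [← hhx, mk_eq] at hgx
  have h6 : (2 : ℤ) ∣ h.n - g.n := by simpa using hgx.1
  exact hh ((Int.dvd_iff_dvd_of_dvd_sub h6).2 hg)

/-- The matrix of an element. -/
def toSL : HG →* Matrix.SpecialLinearGroup (Fin 3) ℝ where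
  toFun g := ⟨!![1, g.n, g.b; 0, 1, g.a; 0, 0, 1], by simp [Matrix.det_fin_three]⟩
  map_one' := by
    ext i j
    fin_cases i <;> fin_cases j <;> simp
  map_mul' g h := by
    apply Subtype.ext
    show (!![1, ((g * h).n : ℝ), (g * h).b; 0, 1, (g * h).a; 0, 0, 1] : Matrix (Fin 3) (Fin 3) ℝ) =
      !![1, (g.n : ℝ), g.b; 0, 1, g.a; 0, 0, 1] * !![1, (h.n : ℝ), h.b; 0, 1, h.a; 0, 0, 1]
    ext i j
    fin_cases i <;> fin_cases j <;> simp [Matrix.mul_apply, Fin.sum_univ_three] <;> ring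

theorem toSL_closed : IsClosedEmbedding toSL := by
  set j : ℝ × ℝ × ℝ → Matrix.SpecialLinearGroup (Fin 3) ℝ := fun p =>
    ⟨!![1, p.1, p.2.2; 0, 1, p.2.1; 0, 0, 1], by simp [Matrix.det_fin_three]⟩ with hj
  have hjc : Continuous j := by
    refine Continuous.subtype_mk (continuous_matrix fun a b => ?_) _
    fin_cases a <;> fin_cases b <;> simp <;> fun_prop
  have hl : Function.LeftInverse (fun M : Matrix.SpecialLinearGroup (Fin 3) ℝ =>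
      ((M : Matrix (Fin 3) (Fin 3) ℝ) 0 1, (M : Matrix (Fin 3) (Fin 3) ℝ) 1 2,
        (M : Matrix (Fin 3) (Fin 3) ℝ) 0 2)) j := by
    rintro ⟨x, y, z⟩
    simp [hj]
  have hlc : Continuous (fun M : Matrix.SpecialLinearGroup (Fin 3) ℝ =>
      ((M : Matrix (Fin 3) (Fin 3) ℝ) 0 1, (M : Matrix (Fin 3) (Fin 3) ℝ) 1 2,
        (M : Matrix (Fin 3) (Fin 3) ℝ) 0 2)) :=
    (continuous_subtype_val.matrix_elem 0 1).prodMk
      ((continuous_subtype_val.matrix_elem 1 2).prodMk (continuous_subtype_val.matrix_elem 0 2))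
  have h1 : IsClosedEmbedding j := hl.isClosedEmbedding hlc hjc
  have h2 : IsClosedEmbedding (Prod.map ((↑) : ℤ → ℝ) (id : ℝ × ℝ → ℝ × ℝ)) :=
    Int.isClosedEmbedding_coe_real.prodMap IsClosedEmbedding.id
  exact (h1.comp h2).comp homeo.isClosedEmbedding

theorem result : ∃ (G : Type) (_ : Group G) (_ : TopologicalSpace G),
    IsTopologicalGroup G ∧ PolishSpace G ∧ Group.IsNilpotent G ∧
    (∃ f : G →* Matrix.SpecialLinearGroup (Fin 3) ℝ, IsClosedEmbedding f) ∧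
    ∃ (Γ₁ Γ₂ : Subgroup G) (τ : G) (U₁ : Set (G ⧸ Γ₁)) (U₂ : Set (G ⧸ Γ₂))
      (x₁ : G ⧸ Γ₁) (x₂ : G ⧸ Γ₂),
      DiscreteTopology Γ₁ ∧ DiscreteTopology Γ₂ ∧ CompactSpace (G ⧸ Γ₁) ∧ CompactSpace (G ⧸ Γ₂) ∧
      IsMinimalTranslation Γ₁ τ ∧ IsMinimalTranslation Γ₂ τ ∧ IsOpen U₁ ∧ IsOpen U₂ ∧
      AsymmetricClosure Γ₁ U₁ ∧ AsymmetricClosure Γ₂ U₂ ∧
      {n : ℤ | τ ^ n • x₁ ∈ U₁} = {n : ℤ | τ ^ n • x₂ ∈ U₂} ∧
      IsEmpty ((G ⧸ Γ₁) ≃ₜ (G ⧸ Γ₂)) := by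
  refine ⟨HG, inferInstance, inferInstance, inferInstance, inferInstance, inferInstance,
    ⟨toSL, toSL_closed⟩, Gam 1, Gam 2, ⟨1, Real.sqrt 2, 0⟩, box 1 (Ioo 0 (1 / 3)),
    box 2 (Ioo 0 (1 / 3)), QuotientGroup.mk 1, QuotientGroup.mk 1, inferInstance, inferInstance,
    compact_quot (by norm_num), compact_quot (by norm_num),
    minimal (by norm_num) irrational_sqrt_two, minimal (by norm_num) irrational_sqrt_two,
    isOpen_box 1, isOpen_box 2, asym 1, asym 2, ?_, not_homeo⟩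
  ext k
  show (QuotientGroup.mk ((⟨1, Real.sqrt 2, 0⟩ : HG) ^ k * 1) : HG ⧸ Gam 1) ∈
      box 1 (Ioo 0 (1 / 3)) ↔
    (QuotientGroup.mk ((⟨1, Real.sqrt 2, 0⟩ : HG) ^ k * 1) : HG ⧸ Gam 2) ∈ box 2 (Ioo 0 (1 / 3))
  rw [mem_box, mem_box]

end Pool.Agent.Results.MP_2aa58c_an.HeisenbergReturnTimes
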